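import Mathlib

/-!
# Pseudoradial spaces and `C_p`
-/

set_option autoImplicit false

namespace Pool.Agent.MP_94a925_gt

open Filter Topology

universe u

/-- A subset `A` of `Z` is radially closed if every point to which some transfinite sequence
`(s_α)_{α < κ}` (`κ > 0` an ordinal) of points of `A` converges lies in `A`.  Here the sequence
converges to `z` if every neighbourhood of `z` contains `s_α` for all sufficiently large
`α < κ`. -/
def IsRadiallyClosed {Z : Type u} [TopologicalSpace Z] (A : Set Z) : Prop :=
  ∀ κ : Ordinal.{u}, 0 < κ → ∀ (s : Set.Iio κ → Z) (z : Z),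
    (∀ α, s α ∈ A) → (∀ U ∈ 𝓝 z, ∃ β : Set.Iio κ, ∀ α : Set.Iio κ, β ≤ α → s α ∈ U) → z ∈ A

/-- A space is pseudoradial if every radially closed subset is closed. -/
def IsPseudoradial (Z : Type u) [TopologicalSpace Z] : Prop :=
  ∀ A : Set Z, IsRadiallyClosed A → IsClosed A

/-- The space `C_p(X)` of continuous real functions on `X` with the topology of pointwise
convergence, i.e. the subspace topology inherited from the product `ℝ^X`. -/
abbrev Cp (X : Type) [TopologicalSpace X] : Type := {f : X → ℝ // Continuous f}

end Pool.Agent.MP_94a925_gt
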