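import Pool.Agent.Lib_MP_94a925_gt.Topo

/-!
# The unit interval
-/

set_option autoImplicit false

namespace Pool.Agent.MP_94a925_gt

open MeasureTheory Topology

universe u

theorem unitInterval_isOpenPosMeasure : (volume : Measure unitInterval).IsOpenPosMeasure := by
  constructor
  intro U hU hne h0
  obtain ⟨x, hx⟩ := hne
  obtain ⟨ε, hε, hball⟩ := Metric.isOpen_iff.1 hU x hx
  have h1 : (volume : Measure unitInterval) (Metric.ball x ε) = 0 :=
    measure_mono_null hball h0
  rw [unitInterval.volume_apply] at h1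
  have h2 : Set.Ioo (max 0 ((x : ℝ) - ε)) (min 1 ((x : ℝ) + ε)) ⊆
      Subtype.val '' (Metric.ball x ε) := by
    intro y hy
    rw [Set.mem_Ioo, max_lt_iff, lt_min_iff] at hy
    refine ⟨⟨y, hy.1.1.le, hy.2.1.le⟩, ?_, rfl⟩
    rw [Metric.mem_ball, Subtype.dist_eq, Real.dist_eq, abs_lt]
    simp only
    constructor <;> linarith [hy.1.2, hy.2.2]
  have h3 := measure_mono_null h2 h1
  rw [Real.volume_Ioo, ENNReal.ofReal_eq_zero] at h3
  have h4 : max 0 ((x : ℝ) - ε) < min 1 ((x : ℝ) + ε) := by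
    have := x.2.1
    have := x.2.2
    rw [max_lt_iff, lt_min_iff, lt_min_iff]
    refine ⟨⟨by norm_num, by linarith⟩, ⟨by linarith, by linarith⟩⟩
  linarith

theorem no_embedding_unitInterval (Z : Type u) [TopologicalSpace Z] [T35Space Z]
    (hZ : IsPseudoradial Z) : ¬ ∃ e : Cp unitInterval → Z, IsEmbedding e := by
  rintro ⟨e, he⟩
  have := unitInterval_isOpenPosMeasure
  exact no_embedding hZ e he

end Pool.Agent.MP_94a925_gt
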