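import Mathlib

/-!
# The choice of the finite sets and radii
-/

set_option autoImplicit false
set_option linter.unusedSectionVars false

namespace Pool.Agent.MP_94a925_gt

open MeasureTheory Set Filter Topology Metric

variable {I : Type} [MetricSpace I] [CompactSpace I] [MeasureSpace I] [BorelSpace I]
  [IsProbabilityMeasure (volume : Measure I)] [NullSingletonClass (volume : Measure I)]
  [(volume : Measure I).IsOpenPosMeasure]

/-- the tuple `h` meets `V` -/
def Hits (V : Set I) {s : ℕ} (h : Fin s → I) : Prop := ∃ m, h m ∈ V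

theorem volume_hits_le (V : Set I) (hV : MeasurableSet V) (s : ℕ) :
    volume {h : Fin s → I | Hits V h} ≤ s * volume V := by
  have h1 : {h : Fin s → I | Hits V h} = ⋃ m, (Function.eval m) ⁻¹' V := by
    ext h; simp [Hits]
  rw [h1]
  refine (measure_iUnion_fintype_le _ _).trans ?_
  have h2 : ∀ m : Fin s, volume ((Function.eval m : (Fin s → I) → I) ⁻¹' V) = volume V := by
    intro m
    have := measurePreserving_eval (fun _ : Fin s => (volume : Measure I)) m
    exact this.measure_preimage hV.nullMeasurableSet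
  simp [h2]

/-- almost every section of a null set is null -/
theorem ae_section_null {s : ℕ} (K : Set (Fin (s + 1) → I)) (hK : volume K = 0) :
    ∀ᵐ z : I, volume {h : Fin s → I | (Fin.cons z h : Fin (s + 1) → I) ∈ K} = 0 := by
  have h1 := volume_preserving_piFinSuccAbove (fun _ : Fin (s + 1) => I) 0
  have h2 := h1.symm
  have h3 : volume ((MeasurableEquiv.piFinSuccAbove (fun _ : Fin (s + 1) => I) 0).symm ⁻¹' K) = 0 := by
    rw [h2.measure_preimage_equiv, hK]
  have h4 := Measure.measure_ae_null_of_prod_null h3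
  filter_upwards [h4] with z hz
  refine le_antisymm ((measure_mono fun h hh => ?_).trans_eq hz) zero_le
  have h5 : (MeasurableEquiv.piFinSuccAbove (fun _ : Fin (s + 1) => I) 0).symm (z, h) =
      Fin.cons z h := by
    rw [MeasurableEquiv.symm_apply_eq]
    ext
    · simp
    · simp
  rw [mem_preimage, mem_preimage, h5]
  exact hh

/-- the set of `h` which have an extension by a point of `V` in `K` -/
def Sec {s : ℕ} (K : Set (Fin (s + 1) → I)) (V : Set I) : Set (Fin s → I) :=
  {h | ∃ z ∈ V, (Fin.cons z h : Fin (s + 1) → I) ∈ K}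

theorem Sec_mono {s : ℕ} {K K' : Set (Fin (s + 1) → I)} {V V' : Set I} (h : K ⊆ K') (h' : V ⊆ V') :
    Sec K V ⊆ Sec K' V' := by
  rintro x ⟨z, hz, hz'⟩
  exact ⟨z, h' hz, h hz'⟩

/-- shrinking lemma -/
theorem eventually_Sec_le {s : ℕ} (K : Set (Fin (s + 1) → I)) (hK : IsClosed K) (H : Set I)
    (hH : H.Finite) (hz : ∀ z ∈ H, volume {h : Fin s → I | (Fin.cons z h : Fin (s + 1) → I) ∈ K} = 0)
    (ε : ENNReal) (hε : 0 < ε) :
    ∀ᶠ r in 𝓝[>] (0 : ℝ), volume (Sec K (cthickening r H)) ≤ ε := by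
  have h0 : volume (Sec K H) = 0 := by
    have : Sec K H = ⋃ z ∈ H, {h : Fin s → I | (Fin.cons z h : Fin (s + 1) → I) ∈ K} := by
      ext h; simp [Sec]
    rw [this]
    exact (measure_biUnion_null_iff hH.countable).2 hz
  obtain ⟨U, hU1, hU2, hU3⟩ := (Sec K H).exists_isOpen_lt_of_lt ε (by rw [h0]; exact hε)
  -- the set of first coordinates of points of `K` with rest outside `U`
  let P : Set I := (fun y : Fin (s + 1) → I => y 0) '' (K ∩ {y | Fin.tail y ∉ U})
  have htail : Continuous (fun y : Fin (s + 1) → I => Fin.tail y) := by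
    unfold Fin.tail; fun_prop
  have hP : IsClosed P := by
    have h1 : IsClosed {y : Fin (s + 1) → I | Fin.tail y ∉ U} :=
      (hU2.isClosed_compl).preimage htail
    exact ((hK.inter h1).isCompact.image (continuous_apply 0)).isClosed
  have hPH : H ⊆ Pᶜ := by
    rintro z hz ⟨y, ⟨hy1, hy2⟩, rfl⟩
    apply hy2
    apply hU1
    refine ⟨y 0, hz, ?_⟩
    rwa [Fin.cons_self_tail]
  obtain ⟨δ, hδ, hδP⟩ := hH.isCompact.exists_cthickening_subset_open hP.isOpen_compl hPH
  have h3 : ∀ᶠ r in 𝓝[>] (0 : ℝ), r < δ := by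
    exact (eventually_lt_nhds hδ).filter_mono nhdsWithin_le_nhds
  filter_upwards [h3] with r hr
  refine (measure_mono ?_).trans hU3.le
  rintro h ⟨z, hz, hzK⟩
  by_contra hcon
  have h4 : z ∈ Pᶜ := hδP (cthickening_mono hr.le _ hz)
  apply h4
  exact ⟨Fin.cons z h, ⟨hzK, by simpa using hcon⟩, by simp⟩

theorem eventually_volume_le (H : Set I) (hH : H.Finite) (ε : ENNReal) (hε : 0 < ε) :
    ∀ᶠ r in 𝓝[>] (0 : ℝ), volume (cthickening r H) ≤ ε := by
  have h1 : Tendsto (fun r => volume (cthickening r H)) (𝓝 0) (𝓝 (volume H)) :=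
    tendsto_measure_cthickening_of_isClosed ⟨1, one_pos, measure_ne_top _ _⟩ hH.isClosed
  rw [hH.measure_zero] at h1
  have h2 := h1.mono_left (nhdsWithin_le_nhds (s := Ioi 0))
  exact (h2.eventually (gt_mem_nhds hε)).mono fun r hr => le_of_lt hr

/-- a dense set contains a finite `ε`-dense set avoiding a finite set -/
theorem exists_finite_net (G : Set I) (hG : ∀ᵐ z : I, z ∈ G) (E : Set I) (hE : E.Finite) (ε : ℝ)
    (hε : 0 < ε) : ∃ p : Finset I, (∀ z ∈ p, z ∈ G ∧ z ∉ E) ∧ ∀ x, ∃ z ∈ p, dist x z < ε := by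
  have h1 : ∀ᵐ z : I, z ∈ G \ E := by
    have h2 : ∀ᵐ z : I, z ∉ E := measure_eq_zero_iff_ae_notMem.1 (hE.measure_zero _)
    filter_upwards [hG, h2] with z hz1 hz2 using ⟨hz1, hz2⟩
  have hd : Dense (G \ E) := by
    exact Measure.dense_of_ae h1
  have hcover : (univ : Set I) ⊆ ⋃ z ∈ G \ E, ball z ε := by
    intro x _
    obtain ⟨z, hz, hz'⟩ := hd.exists_dist_lt x hε
    exact mem_biUnion hz (by rwa [mem_ball])
  obtain ⟨b, hb1, hb2, hb3⟩ := isCompact_univ.elim_finite_subcover_image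
    (fun z _ => isOpen_ball) hcover
  refine ⟨hb2.toFinset, ?_, ?_⟩
  · intro z hz
    exact hb1 (hb2.mem_toFinset.1 hz)
  · intro x
    have := hb3 (mem_univ x)
    simp only [mem_iUnion, mem_ball, exists_prop] at this
    obtain ⟨z, hz, hz'⟩ := this
    exact ⟨z, hb2.mem_toFinset.2 hz, hz'⟩

/-- pairwise disjoint finite nets of good points -/
theorem exists_nets (G : Set I) (hG : ∀ᵐ z : I, z ∈ G) (ε : ℝ) (hε : 0 < ε) :
    ∃ p : ℕ → Finset I, (∀ j, (∀ z ∈ p j, z ∈ G) ∧ ∀ x, ∃ z ∈ p j, dist x z < ε) ∧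
      ∀ i j, i < j → Disjoint (p i) (p j) := by
  classical
  refine exists_seq_of_forall_finset_exists
    (fun p : Finset I => (∀ z ∈ p, z ∈ G) ∧ ∀ x, ∃ z ∈ p, dist x z < ε) (fun p q => Disjoint p q) ?_
  intro t _
  obtain ⟨p, hp1, hp2⟩ := exists_finite_net G hG (↑(t.biUnion id)) (Finset.finite_toSet _) ε hε
  refine ⟨p, ⟨fun z hz => (hp1 z hz).1, hp2⟩, fun q hq => ?_⟩
  rw [Finset.disjoint_left]
  intro z hz hz'
  apply (hp1 z hz').2
  rw [Finset.mem_coe, Finset.mem_biUnion]
  exact ⟨q, hq, hz⟩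

/-- `1/(n+1)` as an extended nonnegative real -/
noncomputable def eps (n : ℕ) : ENNReal := ((n : ENNReal) + 1)⁻¹

theorem eps_pos (n : ℕ) : 0 < eps n := by
  unfold eps
  rw [ENNReal.inv_pos]
  exact ENNReal.add_ne_top.2 ⟨ENNReal.natCast_ne_top n, ENNReal.one_ne_top⟩

theorem eps_tendsto : Tendsto eps atTop (𝓝 0) := by
  have h := ENNReal.tendsto_inv_nat_nhds_zero
  have h2 := (tendsto_add_atTop_iff_nat 1).2 h
  refine h2.congr fun n => ?_
  simp [eps]

theorem eventually_disjoint (s t : Set I) (hs : s.Finite) (ht : t.Finite) (hst : Disjoint s t) :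
    ∀ᶠ r in 𝓝[>] (0 : ℝ), Disjoint (cthickening r s) (cthickening r t) := by
  obtain ⟨δ, hδ, h⟩ := hst.exists_cthickenings hs.isCompact ht.isClosed
  have h3 : ∀ᶠ r in 𝓝[>] (0 : ℝ), r < δ := (eventually_lt_nhds hδ).filter_mono nhdsWithin_le_nhds
  filter_upwards [h3] with r hr
  exact h.mono (cthickening_mono hr.le _) (cthickening_mono hr.le _)

/-- the choice of the finite sets and of the radii at one stage -/
theorem exists_stage (K : (s : ℕ) → ℕ → Set (Fin (s + 1) → I)) (hK : ∀ s n, IsClosed (K s n))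
    (hK0 : ∀ s n, volume (K s n) = 0) :
    ∃ (H : ℕ → ℕ → Finset I) (r : ℕ → ℝ), (∀ n, 0 < r n) ∧
      (∀ n j x, ∃ z ∈ H n j, dist x z < 1 / ((n : ℝ) + 1)) ∧
      (∀ n, ∀ i ≤ n, ∀ j ≤ n, i < j →
        Disjoint (cthickening (r n) (H n i : Set I)) (cthickening (r n) (H n j : Set I))) ∧
      ∀ n, ∃ B : Set I, IsClosed B ∧ (∀ j ≤ n, cthickening (r n) (H n j : Set I) ⊆ B) ∧
        volume B ≤ eps n ∧ ∀ s ≤ n, volume (Sec (K s n) B) ≤ eps n := by
  classical
  let G : Set I := {z | ∀ s n, volume {h : Fin s → I | (Fin.cons z h : Fin (s + 1) → I) ∈ K s n} = 0}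
  have hG : ∀ᵐ z : I, z ∈ G := by
    change ∀ᵐ z : I, ∀ s n, volume {h : Fin s → I | (Fin.cons z h : Fin (s + 1) → I) ∈ K s n} = 0
    rw [ae_all_iff]
    intro s
    rw [ae_all_iff]
    intro n
    exact ae_section_null _ (hK0 s n)
  have key : ∀ n : ℕ, ∃ (H : ℕ → Finset I) (r : ℝ), 0 < r ∧
      (∀ j x, ∃ z ∈ H j, dist x z < 1 / ((n : ℝ) + 1)) ∧
      (∀ i ≤ n, ∀ j ≤ n, i < j →
        Disjoint (cthickening r (H i : Set I)) (cthickening r (H j : Set I))) ∧
      ∃ B : Set I, IsClosed B ∧ (∀ j ≤ n, cthickening r (H j : Set I) ⊆ B) ∧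
        volume B ≤ eps n ∧ ∀ s ≤ n, volume (Sec (K s n) B) ≤ eps n := by
    intro n
    obtain ⟨p, hp1, hp2⟩ := exists_nets G hG (1 / ((n : ℝ) + 1)) (by positivity)
    let HH : Finset I := (Finset.range (n + 1)).biUnion p
    have hHG : ∀ z ∈ HH, z ∈ G := by
      intro z hz
      rw [Finset.mem_biUnion] at hz
      obtain ⟨j, _, hj⟩ := hz
      exact (hp1 j).1 z hj
    have e1 : ∀ᶠ r in 𝓝[>] (0 : ℝ), volume (cthickening r (HH : Set I)) ≤ eps n :=
      eventually_volume_le _ (Finset.finite_toSet _) _ (eps_pos n)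
    have e2 : ∀ᶠ r in 𝓝[>] (0 : ℝ), ∀ s ∈ Finset.range (n + 1),
        volume (Sec (K s n) (cthickening r (HH : Set I))) ≤ eps n := by
      rw [Filter.eventually_all_finset]
      intro s _
      exact eventually_Sec_le (K s n) (hK s n) _ (Finset.finite_toSet _)
        (fun z hz => hHG z hz s n) _ (eps_pos n)
    have e3 : ∀ᶠ r in 𝓝[>] (0 : ℝ), ∀ i ∈ Finset.range (n + 1), ∀ j ∈ Finset.range (n + 1),
        i < j → Disjoint (cthickening r (p i : Set I)) (cthickening r (p j : Set I)) := by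
      rw [Filter.eventually_all_finset]
      intro i _
      rw [Filter.eventually_all_finset]
      intro j _
      by_cases hij : i < j
      · have h1 : Disjoint (p i : Set I) (p j : Set I) := Finset.disjoint_coe.2 (hp2 i j hij)
        filter_upwards [eventually_disjoint _ _ (Finset.finite_toSet _) (Finset.finite_toSet _) h1]
          with r hr _ using hr
      · exact Filter.Eventually.of_forall fun r h => absurd h hij
    have e4 : ∀ᶠ r in 𝓝[>] (0 : ℝ), 0 < r := self_mem_nhdsWithin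
    obtain ⟨r, h1, h2, h3, h4⟩ := (e1.and (e2.and (e3.and e4))).exists
    refine ⟨p, r, h4, fun j x => (hp1 j).2 x, ?_, cthickening r (HH : Set I),
      isClosed_cthickening, ?_, h1, ?_⟩
    · intro i hi j hj hij
      exact h3 i (Finset.mem_range.2 (by omega)) j (Finset.mem_range.2 (by omega)) hij
    · intro j hj
      apply cthickening_subset_of_subset
      intro z hz
      rw [Finset.mem_coe, Finset.mem_biUnion]
      exact ⟨j, Finset.mem_range.2 (by omega), hz⟩
    · intro s hs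
      exact h2 s (Finset.mem_range.2 (by omega))
  choose H r h1 h2 h3 h4 using key
  exact ⟨H, r, h1, h2, h3, h4⟩

/-- the measure estimate for a subsequence -/
theorem null_of_subseq (K : (s : ℕ) → ℕ → Set (Fin (s + 1) → I))
    (hmono : ∀ s, Monotone (K s)) (B : ℕ → Set I) (hB : ∀ n, IsClosed (B n))
    (hB1 : ∀ n, volume (B n) ≤ eps n) (hB2 : ∀ n, ∀ s ≤ n, volume (Sec (K s n) (B n)) ≤ eps n)
    (V : ℕ → Set I) (N : ℕ → ℕ) (hN : ∀ i, i ≤ N i) (hV : ∀ i, V i ⊆ B (N i)) (s j : ℕ) :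
    volume {h : Fin s → I | ∀ i ≥ j, Hits (V i) h ∨ h ∈ Sec (K s j) (V i)} = 0 := by
  have h1 : ∀ i, max j s ≤ i →
      volume {h : Fin s → I | ∀ i ≥ j, Hits (V i) h ∨ h ∈ Sec (K s j) (V i)} ≤
        s * eps (N i) + eps (N i) := by
    intro i hi
    have hji : j ≤ i := le_trans (le_max_left _ _) hi
    have hsi : s ≤ i := le_trans (le_max_right _ _) hi
    have h2 : {h : Fin s → I | ∀ i ≥ j, Hits (V i) h ∨ h ∈ Sec (K s j) (V i)} ⊆
        {h : Fin s → I | Hits (B (N i)) h} ∪ Sec (K s (N i)) (B (N i)) := by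
      intro h hh
      rcases hh i hji with hh | hh
      · left
        obtain ⟨m, hm⟩ := hh
        exact ⟨m, hV i hm⟩
      · right
        exact Sec_mono (hmono s (hji.trans (hN i))) (hV i) hh
    refine (measure_mono h2).trans ((measure_union_le _ _).trans ?_)
    refine add_le_add ?_ (hB2 (N i) s (hsi.trans (hN i)))
    refine (volume_hits_le _ (hB (N i)).measurableSet s).trans ?_
    exact mul_le_mul_right (hB1 (N i)) _
  have hNt : Tendsto N atTop atTop := tendsto_atTop_mono hN tendsto_id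
  have h2 : Tendsto (fun i => (s : ENNReal) * eps (N i) + eps (N i)) atTop (𝓝 0) := by
    have h3 := eps_tendsto.comp hNt
    have h4 := ENNReal.Tendsto.const_mul (a := (s : ENNReal)) h3 (Or.inr (ENNReal.natCast_ne_top s))
    have h5 := h4.add h3
    simpa using h5
  refine le_antisymm ?_ zero_le
  refine ge_of_tendsto h2 ?_
  filter_upwards [eventually_ge_atTop (max j s)] with i hi
  exact h1 i hi

end Pool.Agent.MP_94a925_gt
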