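import Pool.Agent.Lib_MP_94a925_gt.Defs
import Pool.Agent.Lib_MP_94a925_gt.Meas

/-!
# The topological part
-/

set_option autoImplicit false
set_option linter.unusedSectionVars false

namespace Pool.Agent.MP_94a925_gt

open MeasureTheory Set Filter Topology Metric

universe u

/-- In a pseudoradial space, a countable family of finite levels which accumulates at an outside
point contains a convergent sequence of increasing levels. -/
theorem exists_convergent {Z : Type u} [TopologicalSpace Z] [T1Space Z] (hZ : IsPseudoradial Z)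
    {X : Type*} [TopologicalSpace X] (e : X → Z) (he : IsEmbedding e) (x₀ : X)
    (g : ℕ → ℕ → X) (hne : ∀ n j, g n j ≠ x₀)
    (hcl : ∀ U ∈ 𝓝 x₀, ∃ n, ∃ j ≤ n, g n j ∈ U) :
    ∃ (N j : ℕ → ℕ) (z : Z), (∀ i, i ≤ N i) ∧ (∀ i, j i ≤ N i) ∧
      Tendsto (fun i => e (g (N i) (j i))) atTop (𝓝 z) := by
  classical
  let A : Set Z := {y | ∃ n, ∃ j ≤ n, e (g n j) = y}
  have hA : ¬ IsClosed A := by
    intro hc
    have h1 : e x₀ ∈ closure A := by
      rw [mem_closure_iff_nhds]
      intro U hU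
      obtain ⟨n, j, hj, hU'⟩ := hcl (e ⁻¹' U) (he.continuous.continuousAt hU)
      exact ⟨e (g n j), hU', n, j, hj, rfl⟩
    rw [hc.closure_eq] at h1
    obtain ⟨n, j, _, h⟩ := h1
    exact hne n j (he.injective h)
  have hR : ¬ IsRadiallyClosed A := fun h => hA (hZ A h)
  unfold IsRadiallyClosed at hR
  push Not at hR
  obtain ⟨κ, hκ, s, z, hs, hlim, hz⟩ := hR
  have : Nonempty (Set.Iio κ) := ⟨⟨0, hκ⟩⟩
  -- the finite levels
  let F : ℕ → Set Z := fun n => {y | ∃ m < n, ∃ j ≤ m, e (g m j) = y}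
  have hF : ∀ n, (F n).Finite := by
    intro n
    have h1 : F n ⊆ ↑((Finset.range n ×ˢ Finset.range n).image fun p => e (g p.1 p.2)) := by
      rintro y ⟨m, hm, j, hj, rfl⟩
      rw [Finset.mem_coe, Finset.mem_image]
      exact ⟨(m, j), by simp; omega, rfl⟩
    exact (Finset.finite_toSet _).subset h1
  have hzF : ∀ n, z ∉ F n := by
    rintro n ⟨m, _, j, hj, h⟩
    exact hz ⟨m, j, hj, h⟩
  have h2 : ∀ n, ∃ β : Set.Iio κ, ∀ α : Set.Iio κ, β ≤ α → s α ∉ F n := by
    intro n
    exact hlim (F n)ᶜ ((hF n).isClosed.isOpen_compl.mem_nhds (hzF n))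
  choose α hα using h2
  have h3 : ∀ n, ∃ β : Set.Iio κ, ∀ k ≤ n, α k ≤ β := by
    intro n
    obtain ⟨M, hM⟩ := Finset.exists_le ((Finset.range (n + 1)).image α)
    refine ⟨M, fun k hk => hM _ ?_⟩
    rw [Finset.mem_image]
    exact ⟨k, Finset.mem_range.2 (by omega), rfl⟩
  choose β hβ using h3
  have h4 : ∀ γ : Set.Iio κ, ∃ n, γ < α n := by
    intro γ
    obtain ⟨n, j, hj, h⟩ := hs γ
    refine ⟨n + 1, ?_⟩
    by_contra hcon
    exact hα (n + 1) γ (not_lt.1 hcon) ⟨n, Nat.lt_succ_self n, j, hj, h⟩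
  have h5 : ∀ n, ∃ N, n ≤ N ∧ ∃ j ≤ N, e (g N j) = s (β n) := by
    intro n
    obtain ⟨m, j, hj, h⟩ := hs (β n)
    refine ⟨m, ?_, j, hj, h⟩
    by_contra hcon
    exact hα n (β n) (hβ n n le_rfl) ⟨m, not_le.1 hcon, j, hj, h⟩
  choose N hN j hj hNj using h5
  refine ⟨N, j, z, hN, hj, ?_⟩
  rw [tendsto_def]
  intro U hU
  obtain ⟨γ, hγ⟩ := hlim U hU
  obtain ⟨n₀, hn₀⟩ := h4 γ
  rw [mem_atTop_sets]
  refine ⟨n₀, fun n hn => ?_⟩
  rw [mem_preimage, hNj n]
  exact hγ _ (hn₀.le.trans (hβ n n₀ hn))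

variable {I : Type} [MetricSpace I] [CompactSpace I] [Nonempty I]

/-- the bump function of a finite set -/
noncomputable def bump (H : Finset I) (r : ℝ) : Cp I :=
  ⟨fun x => max 0 (2 - 2 * infDist x (H : Set I) / r), by
    have := continuous_infDist_pt (H : Set I)
    fun_prop⟩

theorem bump_ne_zero (H : Finset I) (hH : H.Nonempty) (r : ℝ) (hr : 0 < r) (x : I)
    (h : (bump H r).1 x ≠ 0) : x ∈ cthickening r (H : Set I) := by
  have h1 : 0 < 2 - 2 * infDist x (H : Set I) / r := by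
    by_contra hcon
    exact h (max_eq_left (not_lt.1 hcon))
  have h2 : infDist x (H : Set I) < r := by
    have h3 : 2 * infDist x (H : Set I) / r < 2 := by linarith
    rw [div_lt_iff₀ hr] at h3
    linarith
  rw [infDist_lt_iff (by simpa using hH)] at h2
  obtain ⟨y, hy, hy'⟩ := h2
  exact mem_cthickening_of_dist_le x y r _ hy hy'.le

theorem one_le_bump (H : Finset I) (r : ℝ) (hr : 0 < r) (x : I)
    (h : infDist x (H : Set I) < r / 2) : 1 ≤ (bump H r).1 x := by
  refine le_trans ?_ (le_max_right _ _)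
  have h3 : 2 * infDist x (H : Set I) / r ≤ 1 := by
    rw [div_le_iff₀ hr]
    linarith
  linarith

/-- Everything a completely regular pseudoradial superspace gives at one point `x`: a continuous
function detecting `|f x| ≥ 1`, which is small on functions vanishing on a finite tuple. -/
theorem exists_tuple {Z : Type u} [TopologicalSpace Z] [T35Space Z] (e : Cp I → Z)
    (he : IsEmbedding e) (x : I) :
    ∃ (F : Z → ℝ) (k : ℕ) (y : Fin k → I), Continuous F ∧ (∀ f : Cp I, 1 ≤ f.1 x → F (e f) = 1) ∧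
      ∀ f : Cp I, (∀ m, f.1 (y m) = 0) → F (e f) < 1 / 2 := by
  classical
  let f₀ : Cp I := ⟨fun _ => 0, continuous_const⟩
  have hopen : IsOpen {f : Cp I | f.1 x < 1} := by
    have : Continuous (fun f : Cp I => f.1 x) := (continuous_apply x).comp continuous_subtype_val
    exact isOpen_lt this continuous_const
  obtain ⟨W, hW1, hW2⟩ := he.isInducing.isOpen_iff.1 hopen
  have hf₀ : e f₀ ∉ Wᶜ := by
    have : f₀ ∈ e ⁻¹' W := by
      rw [hW2]
      change (0 : ℝ) < 1
      norm_num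
    exact fun h => h this
  obtain ⟨F, hF1, hF2, hF3⟩ := CompletelyRegularSpace.completely_regular (e f₀) Wᶜ
    hW1.isClosed_compl hf₀
  have hFc : Continuous (fun z => (F z : ℝ)) := continuous_subtype_val.comp hF1
  have hnhds : {f : Cp I | (F (e f) : ℝ) < 1 / 2} ∈ 𝓝 f₀ := by
    have h1 : Continuous (fun f : Cp I => (F (e f) : ℝ)) := hFc.comp he.continuous
    refine (isOpen_lt h1 continuous_const).mem_nhds ?_
    change (F (e f₀) : ℝ) < 1 / 2
    rw [hF2]
    norm_num
  rw [nhds_subtype_eq_comap, mem_comap] at hnhds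
  obtain ⟨T, hT1, hT2⟩ := hnhds
  rw [nhds_pi, Filter.mem_pi] at hT1
  obtain ⟨G, hG, t, ht1, ht2⟩ := hT1
  obtain ⟨k, y, hy⟩ : ∃ (k : ℕ) (y : Fin k → I), Set.range y = G := by
    obtain ⟨k, y, hy⟩ := hG.fin_param
    exact ⟨k, y, hy.2⟩
  refine ⟨fun z => (F z : ℝ), k, y, hFc, ?_, ?_⟩
  · intro f hf
    have : e f ∈ Wᶜ := by
      intro h
      have h2 : f ∈ e ⁻¹' W := h
      rw [hW2] at h2
      exact absurd hf (not_le.2 h2)
    have h3 := hF3 this
    change (F (e f) : ℝ) = 1
    rw [h3]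
    rfl
  · intro f hf
    apply hT2
    apply ht2
    intro a ha
    rw [← hy] at ha
    obtain ⟨m, rfl⟩ := ha
    rw [hf m]
    exact mem_of_mem_nhds (ht1 (y m))

/-- the points which are met infinitely often form a residual set -/
theorem residual_of_nets (H : ℕ → Finset I) (r : ℕ → ℝ) (hr : ∀ i, 0 < r i)
    (hH : ∀ i x, ∃ z ∈ H i, dist x z < 1 / ((i : ℝ) + 1)) :
    ∀ᶠ x in residual I, ∀ m : ℕ, ∃ i ≥ m, 1 ≤ (bump (H i) (r i)).1 x := by
  rw [eventually_countable_forall]
  intro m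
  let O : Set I := ⋃ i ≥ m, {x | infDist x (H i : Set I) < r i / 2}
  have hO : IsOpen O := by
    refine isOpen_biUnion fun i _ => ?_
    exact isOpen_lt (continuous_infDist_pt _) continuous_const
  have hd : Dense O := by
    intro x
    rw [Metric.mem_closure_iff]
    intro ε hε
    obtain ⟨i, hi⟩ := exists_nat_one_div_lt hε
    obtain ⟨z, hz, hz'⟩ := hH (max i m) x
    refine ⟨z, ?_, ?_⟩
    · refine mem_biUnion (le_max_right i m) ?_
      have : infDist z (H (max i m) : Set I) = 0 := infDist_zero_of_mem hz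
      rw [mem_ofPred_eq, this]
      exact half_pos (hr _)
    · refine hz'.trans (lt_of_le_of_lt ?_ hi)
      apply one_div_le_one_div_of_le (by positivity)
      have : (i : ℝ) ≤ (max i m : ℕ) := by exact_mod_cast le_max_left i m
      linarith
  filter_upwards [residual_of_dense_open hO hd] with x hx
  simp only [O, mem_iUnion, mem_ofPred_eq, exists_prop] at hx
  obtain ⟨i, hi, hx⟩ := hx
  exact ⟨i, hi, one_le_bump _ _ (hr i) x hx⟩

section

variable [MeasureSpace I] [BorelSpace I]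
  [IsProbabilityMeasure (volume : Measure I)] [NullSingletonClass (volume : Measure I)]
  [(volume : Measure I).IsOpenPosMeasure]

/-- One stage: a sequence of closed sets which is met by almost all finite tuples, and which
is almost nowhere covered. -/
theorem one_stage {Z : Type u} [TopologicalSpace Z] [T35Space Z] (hZ : IsPseudoradial Z)
    (e : Cp I → Z) (he : IsEmbedding e) (F : I → Z → ℝ) (k : I → ℕ) (y : (x : I) → Fin (k x) → I)
    (hF : ∀ x, Continuous (F x)) (hF1 : ∀ x, ∀ f : Cp I, 1 ≤ f.1 x → F x (e f) = 1)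
    (hF2 : ∀ x, ∀ f : Cp I, (∀ m, f.1 (y x m) = 0) → F x (e f) < 1 / 2)
    (K : (s : ℕ) → ℕ → Set (Fin (s + 1) → I)) (hK : ∀ s n, IsClosed (K s n))
    (hK0 : ∀ s n, volume (K s n) = 0) (hmono : ∀ s, Monotone (K s)) :
    ∃ V : ℕ → Set I, (∀ i, IsClosed (V i)) ∧
      (∀ᶠ x in residual I, ∃ j, ∀ i ≥ j, Hits (V i) (y x)) ∧
      ∀ s j, volume {h : Fin s → I | ∀ i ≥ j, Hits (V i) h ∨ h ∈ Sec (K s j) (V i)} = 0 := by
  classical
  obtain ⟨H, r, hr, hH, hdis, hB⟩ := exists_stage K hK hK0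
  choose B hBc hBV hB1 hB2 using hB
  have hne : ∀ n j, (H n j).Nonempty := by
    intro n j
    obtain ⟨z, hz, _⟩ := hH n j (Classical.arbitrary I)
    exact ⟨z, hz⟩
  let f₀ : Cp I := ⟨fun _ => 0, continuous_const⟩
  have hg0 : ∀ n j, bump (H n j) (r n) ≠ f₀ := by
    intro n j h
    obtain ⟨z, hz⟩ := hne n j
    have h1 := one_le_bump (H n j) (r n) (hr n) z (by
      rw [infDist_zero_of_mem (by exact_mod_cast hz)]; exact half_pos (hr n))
    rw [h] at h1
    change (1 : ℝ) ≤ 0 at h1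
    linarith
  have hcl : ∀ U ∈ 𝓝 f₀, ∃ n, ∃ j ≤ n, bump (H n j) (r n) ∈ U := by
    intro U hU
    rw [nhds_subtype_eq_comap, mem_comap] at hU
    obtain ⟨T, hT1, hT2⟩ := hU
    rw [nhds_pi, Filter.mem_pi] at hT1
    obtain ⟨G, hG, t, ht1, ht2⟩ := hT1
    let n := hG.toFinset.card
    -- pigeonhole
    have h1 : ∃ j ≤ n, ∀ a ∈ G, a ∉ cthickening (r n) (H n j : Set I) := by
      by_contra hcon
      push Not at hcon
      choose a ha1 ha2 using hcon
      have h2 : Function.Injective (fun j : Fin (n + 1) => a j (Nat.lt_succ_iff.1 j.2)) := by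
        intro i j hij
        by_contra hne'
        rcases lt_or_gt_of_ne (fun h => hne' (Fin.ext h)) with h | h
        · have h3 := hdis n i (Nat.lt_succ_iff.1 i.2) j (Nat.lt_succ_iff.1 j.2) h
          refine (Set.disjoint_left.1 h3) (ha2 i (Nat.lt_succ_iff.1 i.2)) ?_
          simp only at hij
          rw [hij]
          exact ha2 j (Nat.lt_succ_iff.1 j.2)
        · have h3 := hdis n j (Nat.lt_succ_iff.1 j.2) i (Nat.lt_succ_iff.1 i.2) h
          refine (Set.disjoint_left.1 h3) (ha2 j (Nat.lt_succ_iff.1 j.2)) ?_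
          simp only at hij
          rw [← hij]
          exact ha2 i (Nat.lt_succ_iff.1 i.2)
      have h3 : Fintype.card (Fin (n + 1)) ≤ hG.toFinset.card := by
        rw [← Finset.card_univ]
        refine Finset.card_le_card_of_injOn (fun j : Fin (n + 1) => a j (Nat.lt_succ_iff.1 j.2)) ?_
          h2.injOn
        intro j _
        rw [Finset.mem_coe, Set.Finite.mem_toFinset]
        exact ha1 j (Nat.lt_succ_iff.1 j.2)
      rw [Fintype.card_fin] at h3
      have h4 : n + 1 ≤ n := h3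
      omega
    obtain ⟨j, hj, hja⟩ := h1
    refine ⟨n, j, hj, ?_⟩
    apply hT2
    apply ht2
    intro a ha
    have h5 : (bump (H n j) (r n)).1 a = 0 := by
      by_contra hcon
      exact hja a ha (bump_ne_zero _ (hne n j) _ (hr n) a hcon)
    rw [h5]
    exact mem_of_mem_nhds (ht1 a)
  obtain ⟨N, j, z, hN, hj, hlim⟩ := exists_convergent hZ e he f₀ (fun n j => bump (H n j) (r n))
    hg0 hcl
  refine ⟨fun i => cthickening (r (N i)) (H (N i) (j i) : Set I), fun i => isClosed_cthickening,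
    ?_, ?_⟩
  · have hres := residual_of_nets (fun i => H (N i) (j i)) (fun i => r (N i)) (fun i => hr _)
      (fun i x => by
        obtain ⟨z, hz, hz'⟩ := hH (N i) (j i) x
        refine ⟨z, hz, hz'.trans_le ?_⟩
        apply one_div_le_one_div_of_le (by positivity)
        have : (i : ℝ) ≤ (N i : ℕ) := by exact_mod_cast hN i
        linarith)
    filter_upwards [hres] with x hx
    have h1 : Tendsto (fun i => F x (e (bump (H (N i) (j i)) (r (N i))))) atTop (𝓝 (F x z)) :=
      ((hF x).tendsto z).comp hlim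
    have h2 : F x z = 1 := by
      by_contra hcon
      have h3 := h1.eventually (isOpen_ne.mem_nhds hcon)
      rw [eventually_atTop] at h3
      obtain ⟨m, hm⟩ := h3
      obtain ⟨i, hi, hi'⟩ := hx m
      exact hm i hi (hF1 x _ hi')
    have h3 : ∀ᶠ i in atTop, 1 / 2 < F x (e (bump (H (N i) (j i)) (r (N i)))) := by
      refine h1.eventually (lt_mem_nhds ?_)
      rw [h2]; norm_num
    rw [eventually_atTop] at h3
    obtain ⟨m, hm⟩ := h3
    refine ⟨m, fun i hi => ?_⟩
    have h4 := hm i hi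
    by_contra hcon
    have h5 := hF2 x (bump (H (N i) (j i)) (r (N i))) (by
      intro a
      by_contra hne'
      exact hcon ⟨a, bump_ne_zero _ (hne _ _) _ (hr _) _ hne'⟩)
    linarith
  · intro s j'
    exact null_of_subseq K hmono B hBc hB1 hB2 _ N hN (fun i => hBV (N i) (j i) (hj i)) s j'

/-- `h` has an extension by `l` points meeting all the sets `V a i`, `a ≤ l`, `i ≥ j`. -/
def Ext (l : ℕ) (V : ℕ → ℕ → Set I) (s j : ℕ) : Set (Fin s → I) :=
  {h | ∃ z : Fin l → I, ∀ a ≤ l, ∀ i ≥ j, Hits (V a i) h ∨ Hits (V a i) z}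

theorem Ext_isClosed (l : ℕ) (V : ℕ → ℕ → Set I) (hV : ∀ a i, IsClosed (V a i)) (s j : ℕ) :
    IsClosed (Ext l V s j) := by
  have h1 : Ext l V s j = Prod.fst '' {p : (Fin s → I) × (Fin l → I) |
      ∀ a ≤ l, ∀ i ≥ j, Hits (V a i) p.1 ∨ Hits (V a i) p.2} := by
    ext h
    constructor
    · rintro ⟨z, hz⟩
      exact ⟨(h, z), hz, rfl⟩
    · rintro ⟨⟨h', z⟩, hz, rfl⟩
      exact ⟨z, hz⟩
  have h2 : ∀ {t : ℕ} (W : Set I), IsClosed W → IsClosed {h : Fin t → I | Hits W h} := by
    intro t W hW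
    have : {h : Fin t → I | Hits W h} = ⋃ m, (fun h : Fin t → I => h m) ⁻¹' W := by
      ext h; simp [Hits]
    rw [this]
    exact isClosed_iUnion_of_finite fun m => hW.preimage (continuous_apply m)
  have h3 : IsClosed {p : (Fin s → I) × (Fin l → I) |
      ∀ a ≤ l, ∀ i ≥ j, Hits (V a i) p.1 ∨ Hits (V a i) p.2} := by
    have : {p : (Fin s → I) × (Fin l → I) |
        ∀ a ≤ l, ∀ i ≥ j, Hits (V a i) p.1 ∨ Hits (V a i) p.2} =
        ⋂ a ≤ l, ⋂ i ≥ j, ({p : (Fin s → I) × (Fin l → I) | Hits (V a i) p.1} ∪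
          {p | Hits (V a i) p.2}) := by
      ext p
      simp only [mem_ofPred_eq, mem_iInter, mem_union]
    rw [this]
    refine isClosed_biInter fun a _ => isClosed_biInter fun i _ => IsClosed.union ?_ ?_
    · exact (h2 _ (hV a i)).preimage continuous_fst
    · exact (h2 _ (hV a i)).preimage continuous_snd
  rw [h1]
  exact (h3.isCompact.image continuous_fst).isClosed

theorem Ext_mono (l : ℕ) (V : ℕ → ℕ → Set I) (s : ℕ) : Monotone (Ext l V s) := by
  rintro j j' hj h ⟨z, hz⟩
  exact ⟨z, fun a ha i hi => hz a ha i (hj.trans hi)⟩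

theorem exists_system {Z : Type u} [TopologicalSpace Z] [T35Space Z] (hZ : IsPseudoradial Z)
    (e : Cp I → Z) (he : IsEmbedding e) (F : I → Z → ℝ) (k : I → ℕ) (y : (x : I) → Fin (k x) → I)
    (hF : ∀ x, Continuous (F x)) (hF1 : ∀ x, ∀ f : Cp I, 1 ≤ f.1 x → F x (e f) = 1)
    (hF2 : ∀ x, ∀ f : Cp I, (∀ m, f.1 (y x m) = 0) → F x (e f) < 1 / 2) (l : ℕ) :
    ∃ V : ℕ → ℕ → Set I, (∀ a i, IsClosed (V a i)) ∧
      (∀ᶠ x in residual I, ∀ a ≤ l, ∃ j, ∀ i ≥ j, Hits (V a i) (y x)) ∧
      ∀ s j, volume (Ext l V s j) = 0 := by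
  classical
  induction l with
  | zero =>
    obtain ⟨V, hV1, hV2, hV3⟩ := one_stage hZ e he F k y hF hF1 hF2 (fun _ _ => ∅)
      (fun _ _ => isClosed_empty) (fun _ _ => measure_empty) (fun _ _ _ _ => le_rfl)
    refine ⟨fun _ => V, fun _ => hV1, ?_, fun s j => ?_⟩
    · filter_upwards [hV2] with x hx a _ using hx
    · refine measure_mono_null ?_ (hV3 s j)
      rintro h ⟨z, hz⟩ i hi
      rcases hz 0 le_rfl i hi with h1 | ⟨m, _⟩
      · exact Or.inl h1
      · exact m.elim0
  | succ l ih =>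
    obtain ⟨V, hV1, hV2, hV3⟩ := ih
    obtain ⟨W, hW1, hW2, hW3⟩ := one_stage hZ e he F k y hF hF1 hF2
      (fun s j => Ext l V (s + 1) j) (fun s j => Ext_isClosed l V hV1 (s + 1) j)
      (fun s j => hV3 (s + 1) j) (fun s => Ext_mono l V (s + 1))
    refine ⟨fun a i => if a = l + 1 then W i else V a i, ?_, ?_, fun s j => ?_⟩
    · intro a i
      by_cases h : a = l + 1
      · simp only [h, if_true]; exact hW1 i
      · simp only [h, if_false]; exact hV1 a i
    · filter_upwards [hV2, hW2] with x hx1 hx2 a ha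
      by_cases h : a = l + 1
      · simp only [h, if_true]; exact hx2
      · simp only [h, if_false]; exact hx1 a (by omega)
    · refine measure_mono_null ?_ (hW3 s j)
      rintro h ⟨z, hz⟩ i hi
      rcases hz (l + 1) le_rfl i hi with h1 | ⟨m, hm⟩
      · left
        simpa using h1
      · right
        simp only [if_true] at hm
        refine ⟨z m, hm, fun a => z (m.succAbove a), fun a ha i' hi' => ?_⟩
        have h2 := hz a (by omega) i' hi'
        have h3 : a ≠ l + 1 := by omega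
        simp only [h3, if_false] at h2
        rcases h2 with ⟨m', hm'⟩ | ⟨m', hm'⟩
        · left
          exact ⟨m'.succ, by simpa using hm'⟩
        · rcases Fin.eq_self_or_eq_succAbove m m' with rfl | ⟨m'', rfl⟩
          · left
            exact ⟨0, by simpa using hm'⟩
          · right
            exact ⟨m'', hm'⟩

/-- There is no embedding of `C_p(I)` into a completely regular pseudoradial space. -/
theorem no_embedding {Z : Type u} [TopologicalSpace Z] [T35Space Z] (hZ : IsPseudoradial Z)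
    (e : Cp I → Z) : ¬ IsEmbedding e := by
  intro he
  choose F k y hF hF1 hF2 using fun x => exists_tuple e he x
  choose V hV1 hV2 hV3 using exists_system hZ e he F k y hF hF1 hF2
  have hall : ∀ᶠ x in residual I, ∀ l, ∀ a ≤ l, ∃ j, ∀ i ≥ j, Hits (V l a i) (y x) := by
    rw [eventually_countable_forall]
    exact hV2
  obtain ⟨x, hx⟩ := (dense_of_mem_residual hall).nonempty
  change ∀ l, ∀ a ≤ l, ∃ j, ∀ i ≥ j, Hits (V l a i) (y x) at hx
  have hx' : ∀ a, ∃ j, a ≤ k x → ∀ i ≥ j, Hits (V (k x) a i) (y x) := by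
    intro a
    by_cases ha : a ≤ k x
    · obtain ⟨j, hj⟩ := hx (k x) a ha
      exact ⟨j, fun _ => hj⟩
    · exact ⟨0, fun h => absurd h ha⟩
  choose j hj using hx'
  -- a common index
  obtain ⟨J, hJ⟩ := Finset.exists_le ((Finset.range (k x + 1)).image j)
  have h1 : (Fin.elim0 : Fin 0 → I) ∈ Ext (k x) (V (k x)) 0 J := by
    refine ⟨y x, fun a ha i hi => Or.inr (hj a ha i (le_trans (hJ _ ?_) hi))⟩
    rw [Finset.mem_image]
    exact ⟨a, Finset.mem_range.2 (by omega), rfl⟩
  have h2 : Ext (k x) (V (k x)) 0 J = univ := by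
    ext h
    simp only [mem_univ, iff_true]
    have : h = Fin.elim0 := Subsingleton.elim _ _
    rw [this]
    exact h1
  have h3 := hV3 (k x) 0 J
  rw [h2, measure_univ] at h3
  exact one_ne_zero h3

end

end Pool.Agent.MP_94a925_gt
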